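import Mathlib

/-!
# An automorphism invariant extreme positive definite function not vanishing at a free generator
-/

namespace Pool.Agent.Results.MP_4640da_an.ExtremeNonzero

open scoped ComplexOrder ComplexConjugate

/-- positive definite functions on a group -/
def PosDef {G : Type*} [Group G] (φ : G → ℂ) : Prop :=
  ∀ (n : ℕ) (g : Fin n → G) (c : Fin n → ℂ),
    0 ≤ ∑ i, ∑ j, c i * conj (c j) * φ ((g j)⁻¹ * g i)

/-- the automorphism invariant normalised positive definite functions on the free group of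
rank `r` -/
def P1Aut (r : ℕ) : Set (FreeGroup (Fin r) → ℂ) :=
  {φ | PosDef φ ∧ φ 1 = 1 ∧ ∀ (α : MulAut (FreeGroup (Fin r))) (g : FreeGroup (Fin r)),
    φ (α⁻¹ g) = φ g}

section PosDef

variable {G : Type*} [Group G] {φ : G → ℂ}

theorem PosDef.fintype (h : PosDef φ) {ι : Type*} [Fintype ι] (g : ι → G) (c : ι → ℂ) :
    0 ≤ ∑ i, ∑ j, c i * conj (c j) * φ ((g j)⁻¹ * g i) := by
  have e := (Fintype.equivFin ι).symm
  have := h (Fintype.card ι) (fun i => g (e i)) (fun i => c (e i))
  rw [← e.sum_comp]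
  refine this.trans_eq (Finset.sum_congr rfl fun i _ => ?_)
  rw [← e.sum_comp]

theorem PosDef.inv (h : PosDef φ) (h1 : φ 1 = 1) (g : G) : φ g⁻¹ = conj (φ g) := by
  have e1 := h 2 ![g, 1] ![1, 1]
  have e2 := h 2 ![g, 1] ![1, Complex.I]
  simp [Fin.sum_univ_two, h1, Complex.le_def] at e1 e2
  apply Complex.ext
  · simp
    linarith [e2.2]
  · simp
    linarith [e1.2]

/-- a group element at which the function has real part one acts trivially from the right -/
theorem PosDef.mul_right (h : PosDef φ) (h1 : φ 1 = 1) {n : G} (hn : (φ n).re = 1) (g : G) :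
    φ (g * n) = φ g := by
  have hi := h.inv h1 n
  set D := φ g - φ (g * n) with hD
  have e1 := h 3 ![1, n, g⁻¹] ![1, -1, -D]
  have hg := h.inv h1 g
  have hgn := h.inv h1 (g * n)
  have e2 : φ (n⁻¹ * g⁻¹) = conj (φ (g * n)) := by rw [← hgn, mul_inv_rev]
  simp only [Fin.sum_univ_three, Matrix.cons_val_zero, Matrix.cons_val_one,
    Matrix.cons_val_two, Matrix.head_cons, Matrix.tail_cons, inv_one, one_mul,
    mul_one, map_one, map_neg, inv_inv, inv_mul_cancel, mul_inv_cancel, h1, hi, hg, e2] at e1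
  have e3 : (1 : ℂ) + -1 * φ n⁻¹ + 1 * φ n⁻¹ = 1 := by ring
  rw [Complex.le_def] at e1
  have e4 := e1.1
  have hDre : D.re = (φ g).re - (φ (g * n)).re := by rw [hD]; simp
  have hDim : D.im = (φ g).im - (φ (g * n)).im := by rw [hD]; simp
  simp at e4
  have e5 : D.re ^ 2 + D.im ^ 2 ≤ 0 := by
    have f1 : D.re * D.re = D.re * (φ g).re - D.re * (φ (g * n)).re := by rw [← mul_sub, ← hDre]
    have f2 : D.im * D.im = D.im * (φ g).im - D.im * (φ (g * n)).im := by rw [← mul_sub, ← hDim]
    nlinarith [e4, hn, f1, f2]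
  have e6 : D.re = 0 := by nlinarith [sq_nonneg D.re, sq_nonneg D.im]
  have e7 : D.im = 0 := by nlinarith [sq_nonneg D.re, sq_nonneg D.im]
  have e8 : D = 0 := Complex.ext e6 e7
  rw [hD] at e8
  exact (sub_eq_zero.1 e8).symm

theorem PosDef.re_le (h : PosDef φ) (h1 : φ 1 = 1) (g : G) : (φ g).re ≤ 1 := by
  have e1 := h 2 ![g, 1] ![1, -1]
  have e2 := h.inv h1 g
  rw [Complex.le_def] at e1
  have e3 := e1.1
  simp [Fin.sum_univ_two, h1, e2] at e3
  linarith

end PosDef

variable {r : ℕ}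

/-- the reduction modulo two of the abelianisation -/
def v (r : ℕ) : FreeGroup (Fin r) →* Multiplicative (Fin r → ZMod 2) :=
  FreeGroup.lift fun i => Multiplicative.ofAdd (Pi.single i 1)

theorem v_of (i : Fin r) : v r (FreeGroup.of i) = Multiplicative.ofAdd (Pi.single i 1) := by
  simp [v]

/-- every homomorphism to an elementary abelian two group factors through `v` -/
theorem factor (ψ : FreeGroup (Fin r) →* Multiplicative (Fin r → ZMod 2)) (g : FreeGroup (Fin r))
    (hg : v r g = 1) : ψ g = 1 := by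
  let A : (Fin r → ZMod 2) →+ (Fin r → ZMod 2) :=
    { toFun := fun u => ∑ i, u i • Multiplicative.toAdd (ψ (FreeGroup.of i))
      map_zero' := by simp
      map_add' := by intro a b; simp [add_smul, Finset.sum_add_distrib] }
  have h : ψ = (AddMonoidHom.toMultiplicative A).comp (v r) := by
    ext i : 1
    rw [MonoidHom.comp_apply, v_of]
    change _ = Multiplicative.ofAdd (A (Pi.single i 1))
    have : A (Pi.single i 1) = Multiplicative.toAdd (ψ (FreeGroup.of i)) := by
      change ∑ j, (Pi.single i (1 : ZMod 2) : Fin r → ZMod 2) j •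
        Multiplicative.toAdd (ψ (FreeGroup.of j)) = _
      rw [Finset.sum_eq_single i]
      · simp
      · intro j _ hj
        simp [Pi.single_eq_of_ne hj]
      · simp
    rw [this]
    rfl
  rw [h, MonoidHom.comp_apply, hg, map_one]

theorem v_aut (α : MulAut (FreeGroup (Fin r))) (g : FreeGroup (Fin r)) :
    v r (α g) = 1 ↔ v r g = 1 := by
  constructor
  · intro h
    have := factor ((v r).comp (MulEquiv.toMonoidHom α⁻¹)) (α g) h
    rw [MonoidHom.comp_apply] at this
    change v r (α⁻¹ (α g)) = 1 at this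
    rwa [MulAut.inv_apply_self] at this
  · intro h
    exact factor ((v r).comp (MulEquiv.toMonoidHom α)) g h

/-- a representative of a class -/
def rep (u : Fin r → ZMod 2) : FreeGroup (Fin r) :=
  ((List.finRange r).map fun i => if u i = 1 then FreeGroup.of i else 1).prod

theorem zmod2 (a : ZMod 2) (h : a ≠ 1) : a = 0 := by
  revert h; revert a; decide

theorem v_rep (u : Fin r → ZMod 2) : v r (rep u) = Multiplicative.ofAdd u := by
  have h1 : v r (rep u) = ((List.finRange r).map fun i =>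
      Multiplicative.ofAdd (Pi.single i (u i) : Fin r → ZMod 2)).prod := by
    rw [rep, map_list_prod, List.map_map]
    congr 1
    refine List.map_congr_left fun i _ => ?_
    simp only [Function.comp]
    split_ifs with h
    · rw [v_of, h]
    · rw [map_one, zmod2 _ h]; simp
  rw [h1]
  have h2 : ((List.finRange r).map fun i =>
      Multiplicative.ofAdd (Pi.single i (u i) : Fin r → ZMod 2)).prod =
      ∏ i, Multiplicative.ofAdd (Pi.single i (u i) : Fin r → ZMod 2) := by
    rw [← List.prod_ofFn]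
    congr 1
    rw [List.ofFn_eq_map]
  rw [h2, ← ofAdd_sum]
  congr 1
  exact Finset.univ_sum_single u

/-- the value of the function on the two kinds of elements -/
noncomputable def τ (r : ℕ) (g : FreeGroup (Fin r)) : ℂ :=
  if v r g = 1 then 1 else -1 / (2 ^ r - 1)

/-- the transvection multiplying the generator `k` by `s` -/
def T (k : Fin r) (s : FreeGroup (Fin r)) : FreeGroup (Fin r) →* FreeGroup (Fin r) :=
  FreeGroup.lift fun i => if i = k then FreeGroup.of k * s else FreeGroup.of i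

theorem T_rep (k : Fin r) (s : FreeGroup (Fin r)) (u : Fin r → ZMod 2) (hu : u k = 0) :
    T k s (rep u) = rep u := by
  rw [rep, map_list_prod, List.map_map]
  congr 1
  refine List.map_congr_left fun i _ => ?_
  simp only [Function.comp]
  split_ifs with h
  · have : i ≠ k := by rintro rfl; rw [hu] at h; exact absurd h (by decide)
    simp [T, this]
  · rw [map_one]

theorem T_comp (k : Fin r) (s t : FreeGroup (Fin r)) (ht : T k s t = t) (hst : s * t = 1) :
    (T k s).comp (T k t) = MonoidHom.id _ := by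
  ext i
  rw [MonoidHom.comp_apply, MonoidHom.id_apply]
  by_cases h : i = k
  · subst h
    have : T i t (FreeGroup.of i) = FreeGroup.of i * t := by simp [T]
    rw [this, map_mul, ht]
    have : T i s (FreeGroup.of i) = FreeGroup.of i * s := by simp [T]
    rw [this, mul_assoc, hst, mul_one]
  · have h1 : T k t (FreeGroup.of i) = FreeGroup.of i := by simp [T, h]
    have h2 : T k s (FreeGroup.of i) = FreeGroup.of i := by simp [T, h]
    rw [h1, h2]

/-- the automorphism taking the generator `k` into a class `u` with `u k = 1` -/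
theorem exists_aut (k : Fin r) (u : Fin r → ZMod 2) (hu : u k = 1) :
    ∃ α : MulAut (FreeGroup (Fin r)), v r (α (FreeGroup.of k)) = Multiplicative.ofAdd u := by
  set u' : Fin r → ZMod 2 := Function.update u k 0 with hu'
  have hk : u' k = 0 := by simp [hu']
  set w := rep u' with hw
  have h1 : (T k w⁻¹).comp (T k w) = MonoidHom.id _ :=
    T_comp k _ _ (T_rep k _ _ hk) (by simp)
  have h2 : (T k w).comp (T k w⁻¹) = MonoidHom.id _ :=
    T_comp k _ _ (by rw [map_inv, T_rep k _ _ hk]) (by simp)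
  refine ⟨MonoidHom.toMulEquiv (T k w) (T k w⁻¹) h1 h2, ?_⟩
  change v r (T k w (FreeGroup.of k)) = _
  have h3 : T k w (FreeGroup.of k) = FreeGroup.of k * w := by simp [T]
  rw [h3, map_mul, v_of, hw, v_rep, ← ofAdd_add]
  congr 1
  funext i
  by_cases hi : i = k
  · subst hi
    simp [hu', hu]
  · simp [hu', hi]

section Constancy

variable {φ : FreeGroup (Fin r) → ℂ}

theorem eq_of_class (hφ : φ ∈ P1Aut r) (hN : ∀ n, v r n = 1 → (φ n).re = 1)
    {g h : FreeGroup (Fin r)} (hgh : v r g = v r h) : φ g = φ h := by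
  have h1 : v r (h⁻¹ * g) = 1 := by rw [map_mul, map_inv, hgh, inv_mul_cancel]
  have h2 := hφ.1.mul_right hφ.2.1 (hN _ h1) h
  rw [mul_inv_cancel_left] at h2
  exact h2

theorem eq_gen (hφ : φ ∈ P1Aut r) (hN : ∀ n, v r n = 1 → (φ n).re = 1)
    (k : Fin r) (g : FreeGroup (Fin r)) (hg : Multiplicative.toAdd (v r g) k = 1) :
    φ g = φ (FreeGroup.of k) := by
  obtain ⟨α, hα⟩ := exists_aut k _ hg
  have h1 : φ g = φ (α (FreeGroup.of k)) := eq_of_class hφ hN (by rw [hα]; rfl)
  rw [h1]
  have := hφ.2.2 α⁻¹ (FreeGroup.of k)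
  rwa [inv_inv] at this

theorem gen_eq (hφ : φ ∈ P1Aut r) (hN : ∀ n, v r n = 1 → (φ n).re = 1) (k l : Fin r) :
    φ (FreeGroup.of k) = φ (FreeGroup.of l) := by
  by_cases hkl : k = l
  · rw [hkl]
  have h1 := eq_gen hφ hN k (FreeGroup.of k * FreeGroup.of l)
    (by rw [map_mul, v_of, v_of]; simp [hkl])
  have h2 := eq_gen hφ hN l (FreeGroup.of k * FreeGroup.of l)
    (by rw [map_mul, v_of, v_of]; simp [Ne.symm hkl])
  rw [← h1, ← h2]

theorem eq_all (hφ : φ ∈ P1Aut r) (hN : ∀ n, v r n = 1 → (φ n).re = 1) (k : Fin r)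
    (g : FreeGroup (Fin r)) : φ g = if v r g = 1 then 1 else φ (FreeGroup.of k) := by
  split_ifs with h
  · have := eq_of_class hφ hN (g := g) (h := 1) (by rw [h, map_one])
    rw [this, hφ.2.1]
  · have : ∃ l, Multiplicative.toAdd (v r g) l = 1 := by
      by_contra hcon
      push Not at hcon
      apply h
      have h2 : Multiplicative.toAdd (v r g) = 0 := by
        funext i
        exact zmod2 _ (hcon i)
      exact Multiplicative.toAdd.injective h2
    obtain ⟨l, hl⟩ := this
    rw [eq_gen hφ hN l g hl, gen_eq hφ hN l k]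

theorem bound (hφ : φ ∈ P1Aut r) (hN : ∀ n, v r n = 1 → (φ n).re = 1) (k : Fin r) :
    (φ (FreeGroup.of k)).im = 0 ∧ -1 ≤ (2 ^ r - 1) * (φ (FreeGroup.of k)).re := by
  have h := hφ.1.fintype (ι := Fin r → ZMod 2) rep (fun _ => 1)
  set s := φ (FreeGroup.of k) with hs
  have h1 : ∀ i j : Fin r → ZMod 2, φ ((rep j)⁻¹ * rep i) = s + if i = j then 1 - s else 0 := by
    intro i j
    rw [eq_all hφ hN k, map_mul, map_inv, v_rep, v_rep]
    by_cases hij : i = j
    · rw [if_pos (by rw [hij, inv_mul_cancel]), if_pos hij]; ring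
    · rw [if_neg, if_neg hij, add_zero]
      intro h2
      apply hij
      have := (inv_mul_eq_one.1 h2)
      exact (Multiplicative.ofAdd.injective this).symm
  simp only [map_one, mul_one, one_mul, h1, Finset.sum_add_distrib, Finset.sum_const,
    Finset.sum_ite_eq, Finset.mem_univ, if_true, Finset.card_univ] at h
  have hc : Fintype.card (Fin r → ZMod 2) = 2 ^ r := by simp [ZMod.card]
  rw [hc, Complex.le_def] at h
  obtain ⟨h2, h3⟩ := h
  have hm : (1 : ℝ) < 2 ^ r := by
    have : 0 < r := k.pos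
    exact one_lt_pow₀ (by norm_num) (by omega)
  simp at h2 h3
  constructor
  · have h4 : (2 : ℝ) ^ r * (2 ^ r - 1) * s.im = 0 := by
      have e : (((2 : ℂ) ^ r).im) = 0 := by
        have : (2 : ℂ) ^ r = ((2 ^ r : ℝ) : ℂ) := by push_cast; rfl
        rw [this, Complex.ofReal_im]
      have e' : (((2 : ℂ) ^ r).re) = 2 ^ r := by
        have : (2 : ℂ) ^ r = ((2 ^ r : ℝ) : ℂ) := by push_cast; rfl
        rw [this, Complex.ofReal_re]
      rw [e, e'] at h3
      simp at h3
      nlinarith [h3]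
    rcases mul_eq_zero.1 h4 with h5 | h5
    · exfalso
      have : (0 : ℝ) < 2 ^ r * (2 ^ r - 1) := by nlinarith
      linarith
    · exact h5
  · have e : (((2 : ℂ) ^ r).im) = 0 := by
      have : (2 : ℂ) ^ r = ((2 ^ r : ℝ) : ℂ) := by push_cast; rfl
      rw [this, Complex.ofReal_im]
    have e' : (((2 : ℂ) ^ r).re) = 2 ^ r := by
      have : (2 : ℂ) ^ r = ((2 ^ r : ℝ) : ℂ) := by push_cast; rfl
      rw [this, Complex.ofReal_re]
    rw [e, e'] at h2
    simp at h2
    have h4 : 0 ≤ (2 : ℝ) ^ r * ((2 ^ r - 1) * s.re + 1) := by nlinarith [h2]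
    have h5 : 0 ≤ (2 ^ r - 1) * s.re + 1 := by
      by_contra hcon
      push Not at hcon
      nlinarith
    linarith

end Constancy

theorem two_pow_gt (hr : 1 ≤ r) : (1 : ℝ) < 2 ^ r := one_lt_pow₀ (by norm_num) (by omega)

theorem τ_posDef (hr : 1 ≤ r) : PosDef (τ r) := by
  intro n g c
  classical
  have hm := two_pow_gt hr
  set C : Multiplicative (Fin r → ZMod 2) → ℂ := fun u => ∑ i, if v r (g i) = u then c i else 0
    with hC
  have h1 : ∑ i, ∑ j, c i * conj (c j) * (if v r (g i) = v r (g j) then (1 : ℂ) else 0) =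
      ∑ u, C u * conj (C u) := by
    have e : ∀ u, C u * conj (C u) = ∑ i, ∑ j,
        if v r (g i) = u then (if v r (g j) = u then c i * conj (c j) else 0) else 0 := by
      intro u
      rw [hC]
      simp only [map_sum]
      rw [Finset.sum_mul_sum]
      refine Finset.sum_congr rfl fun i _ => Finset.sum_congr rfl fun j _ => ?_
      split_ifs <;> simp
    have e' : ∑ u, C u * conj (C u) = ∑ i, ∑ j, ∑ u,
        if v r (g i) = u then (if v r (g j) = u then c i * conj (c j) else 0) else 0 := by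
      rw [Finset.sum_congr rfl fun u _ => e u, Finset.sum_comm]
      exact Finset.sum_congr rfl fun i _ => Finset.sum_comm
    rw [e']
    refine Finset.sum_congr rfl fun i _ => Finset.sum_congr rfl fun j _ => ?_
    rw [Finset.sum_ite_eq]
    simp only [Finset.mem_univ, if_true]
    by_cases h : v r (g i) = v r (g j)
    · rw [if_pos h, if_pos h.symm, mul_one]
    · rw [if_neg h, if_neg (fun h' => h h'.symm), mul_zero]
  have h2 : ∑ i, ∑ j, c i * conj (c j) = (∑ u, C u) * conj (∑ u, C u) := by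
    have e : ∑ u, C u = ∑ i, c i := by
      simp only [hC]
      rw [Finset.sum_comm]
      refine Finset.sum_congr rfl fun i _ => ?_
      rw [Finset.sum_ite_eq]
      simp
    rw [e, map_sum, Finset.sum_mul_sum]
  have hm' : ((2 : ℂ) ^ r - 1) ≠ 0 := by
    have : ((2 : ℂ) ^ r - 1) = (((2 : ℝ) ^ r - 1 : ℝ) : ℂ) := by push_cast; rfl
    rw [this]
    exact_mod_cast (by linarith : (2 : ℝ) ^ r - 1 ≠ 0)
  have h3 : ∀ i j, τ r ((g j)⁻¹ * g i) =
      (2 ^ r * (if v r (g i) = v r (g j) then (1 : ℂ) else 0) - 1) / (2 ^ r - 1) := by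
    intro i j
    rw [τ, map_mul, map_inv]
    by_cases h : v r (g i) = v r (g j)
    · rw [if_pos (by rw [h, inv_mul_cancel]), if_pos h, mul_one, div_self hm']
    · rw [if_neg, if_neg h]
      · ring
      · intro h'
        exact h (inv_mul_eq_one.1 h').symm
  have h4 : ∑ i, ∑ j, c i * conj (c j) * τ r ((g j)⁻¹ * g i) =
      (2 ^ r * ∑ u, C u * conj (C u) - (∑ u, C u) * conj (∑ u, C u)) / (2 ^ r - 1) := by
    rw [← h1, ← h2, Finset.mul_sum, ← Finset.sum_sub_distrib, Finset.sum_div]
    refine Finset.sum_congr rfl fun i _ => ?_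
    rw [Finset.mul_sum, ← Finset.sum_sub_distrib, Finset.sum_div]
    refine Finset.sum_congr rfl fun j _ => ?_
    rw [h3]
    ring
  rw [h4]
  have h5 : (2 ^ r * ∑ u, C u * conj (C u) - (∑ u, C u) * conj (∑ u, C u)) / (2 ^ r - 1) =
      (((2 ^ r * ∑ u, ‖C u‖ ^ 2 - ‖∑ u, C u‖ ^ 2) / (2 ^ r - 1) : ℝ) : ℂ) := by
    push_cast
    simp only [Complex.mul_conj']
  rw [h5]
  have h6 : ‖∑ u, C u‖ ^ 2 ≤ 2 ^ r * ∑ u, ‖C u‖ ^ 2 := by
    have e1 : ‖∑ u, C u‖ ≤ ∑ u, ‖C u‖ := norm_sum_le _ _
    have e2 := sq_sum_le_card_mul_sum_sq (s := (Finset.univ :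
      Finset (Multiplicative (Fin r → ZMod 2)))) (f := fun u => ‖C u‖)
    have hc : ((Finset.univ : Finset (Multiplicative (Fin r → ZMod 2))).card : ℝ) = 2 ^ r := by
      rw [Finset.card_univ, Fintype.card_multiplicative]
      simp [ZMod.card]
    rw [hc] at e2
    exact (pow_le_pow_left₀ (norm_nonneg _) e1 2).trans e2
  have h7 : 0 ≤ (2 ^ r * ∑ u, ‖C u‖ ^ 2 - ‖∑ u, C u‖ ^ 2) / ((2 : ℝ) ^ r - 1) :=
    div_nonneg (by linarith) (by linarith)
  exact_mod_cast h7

theorem τ_mem (hr : 1 ≤ r) : τ r ∈ P1Aut r := by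
  refine ⟨τ_posDef hr, ?_, ?_⟩
  · simp [τ]
  · intro α g
    have := v_aut (r := r) α⁻¹ g
    by_cases h : v r g = 1
    · rw [τ, τ, if_pos h, if_pos (this.2 h)]
    · rw [τ, τ, if_neg h, if_neg (fun h' => h (this.1 h'))]

theorem τ_of (k : Fin r) :
    τ r (FreeGroup.of k) = ((-1 / (2 ^ r - 1) : ℝ) : ℂ) := by
  have : v r (FreeGroup.of k) ≠ 1 := by
    rw [v_of]
    intro h
    have h2 := congrFun (Multiplicative.ofAdd.injective (h.trans ofAdd_zero.symm)) k
    simp at h2
  rw [τ, if_neg this]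
  push_cast
  rfl

theorem τ_unique (hr : 1 ≤ r) {φ₁ φ₂ : FreeGroup (Fin r) → ℂ} (h₁ : φ₁ ∈ P1Aut r)
    (h₂ : φ₂ ∈ P1Aut r) {a b : ℝ} (ha : 0 < a) (hb : 0 < b) (hab : a + b = 1)
    (h : a • φ₁ + b • φ₂ = τ r) : φ₁ = τ r := by
  have hm := two_pow_gt hr
  have hN : ∀ n, v r n = 1 → (φ₁ n).re = 1 ∧ (φ₂ n).re = 1 := by
    intro n hn
    have e1 := congrArg Complex.re (congrFun h n)
    rw [τ, if_pos hn] at e1
    simp at e1
    have e2 := h₁.1.re_le h₁.2.1 n
    have e3 := h₂.1.re_le h₂.2.1 n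
    constructor
    · nlinarith
    · nlinarith
  have hN₁ := fun n hn => (hN n hn).1
  have hN₂ := fun n hn => (hN n hn).2
  let k : Fin r := ⟨0, by omega⟩
  obtain ⟨i₁, b₁⟩ := bound h₁ hN₁ k
  obtain ⟨i₂, b₂⟩ := bound h₂ hN₂ k
  have e1 := congrArg Complex.re (congrFun h (FreeGroup.of k))
  rw [τ_of, Complex.ofReal_re] at e1
  simp at e1
  have e2 : (2 ^ r - 1) * (a * (φ₁ (FreeGroup.of k)).re + b * (φ₂ (FreeGroup.of k)).re) = -1 := by
    rw [e1, mul_div_cancel₀]
    linarith
  have e3 : (2 ^ r - 1) * (φ₁ (FreeGroup.of k)).re = -1 := by nlinarith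
  have e4 : φ₁ (FreeGroup.of k) = ((-1 / (2 ^ r - 1) : ℝ) : ℂ) := by
    apply Complex.ext
    · rw [Complex.ofReal_re, eq_div_iff (by linarith), mul_comm]
      exact e3
    · rw [Complex.ofReal_im]; exact i₁
  funext g
  rw [eq_all h₁ hN₁ k g, e4, τ]
  push_cast
  rfl

/-- **For every rank at least two there is a nontrivial extreme automorphism invariant positive
definite function which does not vanish at the first free generator.** -/
theorem result (r : ℕ) (hr : 2 ≤ r) : ∃ t ∈ (P1Aut r).extremePoints ℝ,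
    t ≠ (fun _ => 1) ∧ t (FreeGroup.of ⟨0, by omega⟩) ≠ 0 := by
  have hr' : 1 ≤ r := by omega
  have hm := two_pow_gt hr'
  have hneg : (-1 / (2 ^ r - 1) : ℝ) < 0 := div_neg_of_neg_of_pos (by norm_num) (by linarith)
  refine ⟨τ r, ?_, ?_, ?_⟩
  · rw [mem_extremePoints]
    refine ⟨τ_mem hr', ?_⟩
    rintro φ₁ h₁ φ₂ h₂ ⟨a, b, ha, hb, hab, h⟩
    exact ⟨τ_unique hr' h₁ h₂ ha hb hab h,
      τ_unique hr' h₂ h₁ hb ha (by linarith) (by rw [add_comm]; exact h)⟩
  · intro h
    have h2 := congrFun h (FreeGroup.of ⟨0, by omega⟩)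
    rw [τ_of] at h2
    have h3 := congrArg Complex.re h2
    rw [Complex.ofReal_re, Complex.one_re] at h3
    linarith
  · rw [τ_of]
    exact_mod_cast hneg.ne

end Pool.Agent.Results.MP_4640da_an.ExtremeNonzero
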